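import Mathlib

/-! # Weighted shifts on abstract sequence spaces: sufficient conditions for periodic shadowing -/

set_option autoImplicit false

open Set Filter Topology

namespace Pool.Agent.Q74.Shift

/-- The properties of `ℓ_p(ℤ)` and `c₀(ℤ)` which are used. -/
structure SeqSpace (𝕜 X : Type*) [RCLike 𝕜] [NormedAddCommGroup X] [NormedSpace 𝕜 X] where
  c : X →ₗ[𝕜] (ℤ → 𝕜)
  inj : ∀ x y, (∀ n, c x n = c y n) → x = y
  coord_le : ∀ x n, ‖c x n‖ ≤ ‖x‖
  dom : ∀ (x : X) (i : ℤ) (C : ℝ) (y : ℤ → 𝕜), 0 ≤ C → (∀ n, ‖y n‖ ≤ C * ‖c x (n + i)‖) →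
    ∃ y' : X, (∀ n, c y' n = y n) ∧ ‖y'‖ ≤ C * ‖x‖
  lim : ∀ x, Tendsto (c x) cofinite (𝓝 0)
  single : ∀ (n : ℤ) (a : 𝕜), ∃ x : X, (∀ m, c x m = if m = n then a else 0) ∧ ‖x‖ ≤ ‖a‖

/-- The periodic shadowing property. -/
def PSP {𝕜 X : Type*} [RCLike 𝕜] [NormedAddCommGroup X] [NormedSpace 𝕜 X] (T : X ≃L[𝕜] X) : Prop :=
  ∀ ε : ℝ, 0 < ε → ∃ δ : ℝ, 0 < δ ∧ ∀ x : ℤ → X, (∃ q : ℕ, 0 < q ∧ ∀ j, x (j + q) = x j) →
    (∀ j, ‖T (x j) - x (j + 1)‖ < δ) →
    ∃ y : X, (∃ q : ℕ, 0 < q ∧ (T ^ q) y = y) ∧ ∀ j : ℤ, ‖x j - (T ^ j) y‖ < ε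

variable {𝕜 X : Type*} [RCLike 𝕜] [NormedAddCommGroup X] [NormedSpace 𝕜 X]

theorem one_app (x : X) : (1 : X ≃L[𝕜] X) x = x := rfl

theorem zpow_add_one_apply (T : X ≃L[𝕜] X) (j : ℤ) (x : X) : (T ^ (j + 1)) x = T ((T ^ j) x) := by
  rw [add_comm, zpow_add, zpow_one]; rfl

theorem zpow_sub_one_apply (T : X ≃L[𝕜] X) (j : ℤ) (x : X) : T ((T ^ (j - 1)) x) = (T ^ j) x := by
  rw [← zpow_add_one_apply, sub_add_cancel]

section
variable (S : SeqSpace 𝕜 X) {T : X ≃L[𝕜] X} {h : ℤ → 𝕜}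

theorem coord_zpow (hh : ∀ n, h n ≠ 0)
    (hT : ∀ x n, S.c (T x) n = h n / h (n + 1) * S.c x (n + 1)) (j : ℤ) :
    ∀ x n, S.c ((T ^ j) x) n = h n / h (n + j) * S.c x (n + j) := by
  induction j using Int.induction_on with
  | zero => intro x n; simp [hh n, one_app]
  | succ i ih =>
    intro x n
    rw [zpow_add_one_apply, hT, ih, ← mul_assoc, add_assoc, add_comm (1:ℤ)]
    congr 1
    have := hh (n + 1)
    field_simp
  | pred i ih =>
    intro x n
    have h1 := ih x (n - 1)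
    rw [← zpow_sub_one_apply, hT] at h1
    have e1 : n - 1 + 1 = n := by ring
    have e2 : n - 1 + -(i:ℤ) = n + (-(i:ℤ) - 1) := by ring
    rw [e1, e2] at h1
    have h2 := hh (n - 1)
    have h3 := hh n
    have h4 := hh (n + (-(i:ℤ) - 1))
    field_simp at h1 ⊢
    linear_combination h1

/-- Restriction of coordinates. -/
theorem exists_restrict (A : Set ℤ) (x : X) :
    ∃ y : X, ∀ n, S.c y n = A.indicator (S.c x) n := by
  classical
  obtain ⟨y, hy, -⟩ := S.dom x 0 1 (A.indicator (S.c x)) zero_le_one (fun n => by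
    rw [add_zero, one_mul]
    exact norm_indicator_le_norm_self _ _)
  exact ⟨y, hy⟩

/-- The restriction. -/
noncomputable def res (A : Set ℤ) (x : X) : X := (exists_restrict S A x).choose

theorem res_coord (A : Set ℤ) (x : X) (n : ℤ) : S.c (res S A x) n = A.indicator (S.c x) n :=
  (exists_restrict S A x).choose_spec n

theorem res_add (A : Set ℤ) (x : X) : res S A x + res S Aᶜ x = x := by
  classical
  refine S.inj _ _ fun n => ?_
  rw [map_add, Pi.add_apply, res_coord, res_coord]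
  by_cases hn : n ∈ A
  · simp [hn]
  · simp [hn]

theorem norm_le_of_coord {x y : X} (i : ℤ) {C : ℝ} (hC : 0 ≤ C)
    (hxy : ∀ n, ‖S.c y n‖ ≤ C * ‖S.c x (n + i)‖) : ‖y‖ ≤ C * ‖x‖ := by
  obtain ⟨y', hy', hn⟩ := S.dom x i C (S.c y) hC hxy
  have : y' = y := S.inj _ _ hy'
  rwa [this] at hn

/-- First sufficient condition: uniform expansivity. -/
theorem psp_of_expansive (hh : ∀ n, h n ≠ 0)
    (hT : ∀ x n, S.c (T x) n = h n / h (n + 1) * S.c x (n + 1))
    {C ρ : ℝ} (hC : 0 < C) (hρ0 : 0 < ρ) (hρ : ρ < 1) {A : Set ℤ}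
    (hA : ∀ n ∈ A, ∀ i : ℕ, ‖h n‖ ≤ C * ρ ^ i * ‖h (n + i)‖)
    (hB : ∀ n ∉ A, ∀ i : ℕ, ‖h n‖ ≤ C * ρ ^ i * ‖h (n - i)‖) : PSP T := by
  have hpos : ∀ n, 0 < ‖h n‖ := fun n => norm_pos_iff.2 (hh n)
  have e1 : ∀ (i : ℕ) (x : X), ‖res S A ((T ^ (i:ℤ)) x)‖ ≤ C * ρ ^ i * ‖x‖ := by
    intro i x
    refine norm_le_of_coord S i (by positivity) fun n => ?_
    rw [res_coord]
    by_cases hn : n ∈ A
    · rw [indicator_of_mem hn, coord_zpow S hh hT, norm_mul, norm_div]
      gcongr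
      rw [div_le_iff₀ (hpos _)]
      exact hA n hn i
    · rw [indicator_of_notMem hn, norm_zero]
      positivity
  have e2 : ∀ (i : ℕ) (x : X), ‖res S Aᶜ ((T ^ (-(i:ℤ))) x)‖ ≤ C * ρ ^ i * ‖x‖ := by
    intro i x
    refine norm_le_of_coord S (-(i:ℤ)) (by positivity) fun n => ?_
    rw [res_coord]
    by_cases hn : n ∈ A
    · rw [indicator_of_notMem (by simpa using hn), norm_zero]
      positivity
    · rw [indicator_of_mem (by simpa using hn), coord_zpow S hh hT, norm_mul, norm_div]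
      gcongr
      rw [div_le_iff₀ (hpos _)]
      exact hB n hn i
  have hρ1 : 0 < 1 - ρ := by linarith
  intro ε hε
  refine ⟨ε * (1 - ρ) / (2 * C + 1), by positivity, fun x hper hps => ?_⟩
  set δ : ℝ := ε * (1 - ρ) / (2 * C + 1) with hδ
  have hδ0 : 0 < δ := by positivity
  obtain ⟨q, hq, hxq⟩ := hper
  -- boundedness
  have hbdd : ∃ B : ℝ, 0 ≤ B ∧ ∀ j, ‖x j‖ ≤ B := by
    refine ⟨∑ i ∈ Finset.range q, ‖x i‖, Finset.sum_nonneg fun _ _ => norm_nonneg _, fun j => ?_⟩
    have hper' : ∀ (k : ℤ) (m : ℕ), x (k + q * m) = x k := by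
      intro k m
      induction m with
      | zero => simp
      | succ m ih =>
        have : k + (q:ℤ) * ((m + 1 : ℕ) : ℤ) = (k + q * m) + q := by push_cast; ring
        rw [this, hxq, ih]
    have hper'' : ∀ (k m : ℤ), x (k + q * m) = x k := by
      intro k m
      obtain ⟨n, rfl | rfl⟩ := m.eq_nat_or_neg
      · exact hper' k n
      · have := hper' (k + q * (-(n:ℤ))) n
        rw [← this]; congr 1; ring
    have hj : x j = x (((j % q).toNat : ℕ) : ℤ) := by
      have h0 : 0 ≤ j % q := Int.emod_nonneg _ (by omega)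
      rw [Int.toNat_of_nonneg h0]
      conv_lhs => rw [← Int.emod_add_mul_ediv j q]
      exact hper'' _ _
    rw [hj]
    refine Finset.single_le_sum (f := fun i : ℕ => ‖x i‖) (fun _ _ => norm_nonneg _) ?_
    rw [Finset.mem_range]
    have h0 : 0 ≤ j % q := Int.emod_nonneg _ (by omega)
    have h1 : j % q < q := Int.emod_lt_of_pos _ (by omega)
    omega
  obtain ⟨B, hB0, hBx⟩ := hbdd
  set d : ℤ → X := fun j => x (j + 1) - T (x j) with hd
  have hdδ : ∀ j, ‖d j‖ ≤ δ := fun j => by rw [hd]; simp only; rw [norm_sub_rev]; exact (hps j).le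
  have hfor : ∀ (i : ℕ) (j : ℤ), x j = (T ^ (i:ℤ)) (x (j - i)) +
      ∑ s ∈ Finset.range i, (T ^ (s:ℤ)) (d (j - 1 - s)) := by
    intro i
    induction i with
    | zero => intro j; simp [one_app]
    | succ i ih =>
      intro j
      rw [ih j, Finset.sum_range_succ]
      have e : x (j - i) = T (x (j - (i + 1 : ℕ))) + d (j - 1 - i) := by
        simp only [hd]
        have e3 : j - 1 - (i:ℤ) = j - ((i + 1 : ℕ) : ℤ) := by push_cast; ring
        have e4 : j - 1 - (i:ℤ) + 1 = j - i := by ring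
        rw [e4, e3]; abel
      have e5 : (T ^ (((i + 1 : ℕ)) : ℤ)) (x (j - (i + 1 : ℕ))) = (T ^ (i:ℤ)) (T (x (j - (i + 1 : ℕ)))) := by
        push_cast
        rw [zpow_add, zpow_one]; rfl
      rw [e5]
      conv_lhs => rw [e]
      rw [map_add]
      abel
  have hback : ∀ (i : ℕ) (j : ℤ), x j = (T ^ (-(i:ℤ))) (x (j + i)) -
      ∑ s ∈ Finset.range i, (T ^ (-((s + 1 : ℕ) : ℤ))) (d (j + s)) := by
    intro i
    induction i with
    | zero => intro j; simp [one_app]
    | succ i ih =>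
      intro j
      rw [ih j, Finset.sum_range_succ]
      have e : x (j + (i + 1 : ℕ)) = T (x (j + i)) + d (j + i) := by
        simp only [hd]
        have e4 : j + (i:ℤ) + 1 = j + ((i + 1 : ℕ) : ℤ) := by push_cast; ring
        rw [e4]; abel
      have e5 : (T ^ (-((i + 1 : ℕ) : ℤ))) (T (x (j + i))) = (T ^ (-(i:ℤ))) (x (j + i)) := by
        have : (-(i:ℤ)) = (-((i + 1 : ℕ) : ℤ)) + 1 := by push_cast; ring
        rw [this, zpow_add, zpow_one]; rfl
      rw [e, map_add, e5]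
      abel
  have hsum : ∀ i : ℕ, ∑ s ∈ Finset.range i, ρ ^ s ≤ 1 / (1 - ρ) := by
    intro i
    rw [geom_sum_eq hρ.ne, ← neg_div_neg_eq, neg_sub, neg_sub]
    gcongr
    have : 0 ≤ ρ ^ i := by positivity
    linarith
  have res_sub : ∀ (A : Set ℤ) (u v : X), res S A (u - v) = res S A u - res S A v := by
    classical
    intro A u v
    refine S.inj _ _ fun n => ?_
    rw [map_sub, Pi.sub_apply, res_coord, res_coord, res_coord, map_sub]
    by_cases hn : n ∈ A <;> simp [hn]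
  have res_add' : ∀ (A : Set ℤ) (u v : X), res S A (u + v) = res S A u + res S A v := by
    classical
    intro A u v
    refine S.inj _ _ fun n => ?_
    rw [map_add, Pi.add_apply, res_coord, res_coord, res_coord, map_add]
    by_cases hn : n ∈ A <;> simp [hn]
  have res_zero : ∀ (A : Set ℤ), res S A (0 : X) = 0 := by
    intro A
    have := res_sub A (0 : X) 0
    rw [sub_self, sub_self] at this
    exact this
  have res_sum : ∀ (A : Set ℤ) (i : ℕ) (f : ℕ → X),
      res S A (∑ s ∈ Finset.range i, f s) = ∑ s ∈ Finset.range i, res S A (f s) := by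
    intro A i f
    induction i with
    | zero => simp [res_zero]
    | succ i ih => rw [Finset.sum_range_succ, res_add', ih, Finset.sum_range_succ]
  have hlim : Tendsto (fun i : ℕ => C * ρ ^ i * B + C * (1 / (1 - ρ)) * δ) atTop
      (𝓝 (C * (1 / (1 - ρ)) * δ)) := by
    have h1 : Tendsto (fun i : ℕ => ρ ^ i) atTop (𝓝 0) := tendsto_pow_atTop_nhds_zero_of_lt_one hρ0.le hρ
    have h2 := ((h1.const_mul C).mul_const B).add_const (C * (1 / (1 - ρ)) * δ)
    simpa using h2
  have b1 : ∀ j, ‖res S A (x j)‖ ≤ C * (1 / (1 - ρ)) * δ := by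
    intro j
    refine ge_of_tendsto' hlim fun i => ?_
    rw [hfor i j, res_add', res_sum]
    refine (norm_add_le _ _).trans (add_le_add ?_ ?_)
    · exact (e1 i _).trans (by gcongr; exact hBx _)
    · refine (norm_sum_le _ _).trans ?_
      calc ∑ s ∈ Finset.range i, ‖res S A ((T ^ (s:ℤ)) (d (j - 1 - s)))‖
          ≤ ∑ s ∈ Finset.range i, C * ρ ^ s * δ := by
            refine Finset.sum_le_sum fun s _ => (e1 s _).trans ?_
            gcongr
            exact hdδ _
        _ = C * (∑ s ∈ Finset.range i, ρ ^ s) * δ := by rw [Finset.mul_sum, Finset.sum_mul]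
        _ ≤ _ := by gcongr; exact hsum i
  have b2 : ∀ j, ‖res S Aᶜ (x j)‖ ≤ C * (1 / (1 - ρ)) * δ := by
    intro j
    refine ge_of_tendsto' hlim fun i => ?_
    rw [hback i j, res_sub, res_sum]
    refine (norm_sub_le _ _).trans (add_le_add ?_ ?_)
    · exact (e2 i _).trans (by gcongr; exact hBx _)
    · refine (norm_sum_le _ _).trans ?_
      calc ∑ s ∈ Finset.range i, ‖res S Aᶜ ((T ^ (-((s + 1 : ℕ):ℤ))) (d (j + s)))‖
          ≤ ∑ s ∈ Finset.range i, C * ρ ^ s * δ := by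
            refine Finset.sum_le_sum fun s _ => (e2 (s + 1) _).trans ?_
            have : ρ ^ (s + 1) ≤ ρ ^ s := pow_le_pow_of_le_one hρ0.le hρ.le (Nat.le_succ s)
            gcongr
            exact hdδ _
        _ = C * (∑ s ∈ Finset.range i, ρ ^ s) * δ := by rw [Finset.mul_sum, Finset.sum_mul]
        _ ≤ _ := by gcongr; exact hsum i
  refine ⟨0, ⟨1, one_pos, by simp⟩, fun j => ?_⟩
  rw [map_zero, sub_zero]
  calc ‖x j‖ = ‖res S A (x j) + res S Aᶜ (x j)‖ := by rw [res_add]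
    _ ≤ C * (1 / (1 - ρ)) * δ + C * (1 / (1 - ρ)) * δ := (norm_add_le _ _).trans (add_le_add (b1 j) (b2 j))
    _ = ε * (2 * C / (2 * C + 1)) := by rw [hδ]; field_simp; ring
    _ < ε * 1 := by
        gcongr
        rw [div_lt_one (by positivity)]; linarith
    _ = ε := mul_one _

/-- Second sufficient condition: generalized hyperbolicity. -/
theorem psp_of_hyperbolic [CompleteSpace X] (hh : ∀ n, h n ≠ 0)
    (hT : ∀ x n, S.c (T x) n = h n / h (n + 1) * S.c x (n + 1))
    {C ρ : ℝ} (hC : 0 < C) (hρ0 : 0 < ρ) (hρ : ρ < 1) {A : Set ℤ}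
    (hA : ∀ n ∈ A, ∀ i : ℕ, ‖h (n + i)‖ ≤ C * ρ ^ i * ‖h n‖)
    (hB : ∀ n ∉ A, ∀ i : ℕ, ‖h (n - i)‖ ≤ C * ρ ^ i * ‖h n‖) : PSP T := by
  have hpos : ∀ n, 0 < ‖h n‖ := fun n => norm_pos_iff.2 (hh n)
  have e1 : ∀ (i : ℕ) (x : X), ‖(T ^ (i:ℤ)) (res S Aᶜ x)‖ ≤ C * ρ ^ i * ‖x‖ := by
    intro i x
    refine norm_le_of_coord S i (by positivity) fun n => ?_
    rw [coord_zpow S hh hT, res_coord]
    by_cases hn : n + i ∈ A
    · rw [indicator_of_notMem (by simpa using hn), mul_zero, norm_zero]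
      positivity
    · rw [indicator_of_mem (by simpa using hn), norm_mul, norm_div]
      gcongr
      rw [div_le_iff₀ (hpos _)]
      have := hB (n + i) hn i
      rwa [add_sub_cancel_right] at this
  have e2 : ∀ (i : ℕ) (x : X), ‖(T ^ (-(i:ℤ))) (res S A x)‖ ≤ C * ρ ^ i * ‖x‖ := by
    intro i x
    refine norm_le_of_coord S (-(i:ℤ)) (by positivity) fun n => ?_
    rw [coord_zpow S hh hT, res_coord]
    by_cases hn : n + -(i:ℤ) ∈ A
    · rw [indicator_of_mem hn, norm_mul, norm_div]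
      gcongr
      rw [div_le_iff₀ (hpos _)]
      have := hA (n + -(i:ℤ)) hn i
      rwa [neg_add_cancel_right] at this
    · rw [indicator_of_notMem hn, mul_zero, norm_zero]
      positivity
  have hρ1 : 0 < 1 - ρ := by linarith
  intro ε hε
  refine ⟨ε * (1 - ρ) / (2 * C + 1), by positivity, fun x hper hps => ?_⟩
  set δ : ℝ := ε * (1 - ρ) / (2 * C + 1) with hδ
  have hδ0 : 0 < δ := by positivity
  obtain ⟨q, hq, hxq⟩ := hper
  set d : ℤ → X := fun j => x (j + 1) - T (x j) with hd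
  have hdδ : ∀ j, ‖d j‖ ≤ δ := fun j => by rw [hd]; simp only; rw [norm_sub_rev]; exact (hps j).le
  have hdq : ∀ j, d (j + q) = d j := by
    intro j
    simp only [hd]
    rw [hxq j, show j + (q:ℤ) + 1 = (j + 1) + q by ring, hxq]
  set u : ℤ → ℕ → X := fun j i => (T ^ (i:ℤ)) (res S Aᶜ (d (j - 1 - i))) with hu
  set v : ℤ → ℕ → X := fun j i => (T ^ (-((i + 1 : ℕ):ℤ))) (res S A (d (j + i))) with hv
  have hun : ∀ j i, ‖u j i‖ ≤ C * δ * ρ ^ i := fun j i =>
    (e1 i _).trans (by have := hdδ (j - 1 - i); calc C * ρ ^ i * ‖d (j - 1 - i)‖ ≤ C * ρ ^ i * δ := by gcongr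
                                                  _ = _ := by ring)
  have hvn : ∀ j i, ‖v j i‖ ≤ C * δ * ρ ^ i := fun j i =>
    (e2 (i + 1) _).trans (by
      have := hdδ (j + i)
      have h2 : ρ ^ (i + 1) ≤ ρ ^ i := pow_le_pow_of_le_one hρ0.le hρ.le (Nat.le_succ i)
      calc C * ρ ^ (i + 1) * ‖d (j + i)‖ ≤ C * ρ ^ i * δ := by gcongr
        _ = _ := by ring)
  have hgeo : Summable fun i : ℕ => C * δ * ρ ^ i :=
    (summable_geometric_of_lt_one hρ0.le hρ).mul_left _
  have hgeoval : ∑' i : ℕ, C * δ * ρ ^ i = C * δ * (1 - ρ)⁻¹ := by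
    rw [tsum_mul_left, tsum_geometric_of_lt_one hρ0.le hρ]
  have hus : ∀ j, Summable (u j) := fun j => Summable.of_norm_bounded hgeo (hun j)
  have hvs : ∀ j, Summable (v j) := fun j => Summable.of_norm_bounded hgeo (hvn j)
  set y : ℤ → X := fun j => ∑' i, u j i - ∑' i, v j i with hy
  have hyn : ∀ j, ‖y j‖ ≤ C * δ * (1 - ρ)⁻¹ + C * δ * (1 - ρ)⁻¹ := by
    intro j
    refine (norm_sub_le _ _).trans (add_le_add ?_ ?_)
    · exact tsum_of_norm_bounded (hgeoval ▸ hgeo.hasSum) (hun j)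
    · exact tsum_of_norm_bounded (hgeoval ▸ hgeo.hasSum) (hvn j)
  have hyT : ∀ j, T (y j) = y (j + 1) - d j := by
    intro j
    have h1 : ∑' i, u (j + 1) i = res S Aᶜ (d j) + T (∑' i, u j i) := by
      rw [(hus (j + 1)).tsum_eq_zero_add, T.map_tsum]
      congr 1
      · simp only [hu]
        rw [show j + 1 - 1 - ((0:ℕ):ℤ) = j by simp]
        simp [one_app]
      · refine tsum_congr fun i => ?_
        simp only [hu]
        rw [show j + 1 - 1 - ((i + 1 : ℕ):ℤ) = j - 1 - i by push_cast; ring]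
        push_cast
        rw [zpow_add_one_apply]
    have h2 : T (∑' i, v j i) = res S A (d j) + ∑' i, v (j + 1) i := by
      rw [T.map_tsum, (T.summable.2 (hvs j)).tsum_eq_zero_add]
      congr 1
      · simp only [hv]
        rw [show j + ((0:ℕ):ℤ) = j by simp]
        have : (-((0 + 1 : ℕ):ℤ)) = 0 - 1 := by simp
        rw [this, zpow_sub_one_apply]
        simp [one_app]
      · refine tsum_congr fun i => ?_
        simp only [hv]
        rw [show j + ((i + 1 : ℕ):ℤ) = j + 1 + i by push_cast; ring]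
        have : (-((i + 1 + 1 : ℕ):ℤ)) = (-((i + 1 : ℕ):ℤ)) - 1 := by push_cast; ring
        rw [this, zpow_sub_one_apply]
    simp only [hy]
    rw [map_sub, h1, h2]
    have h3 := res_add S A (d j)
    nth_rewrite 3 [← h3]
    abel
  have hyq : ∀ j, y (j + q) = y j := by
    intro j
    simp only [hy, hu, hv]
    congr 1
    · refine tsum_congr fun i => ?_
      rw [show j + (q:ℤ) - 1 - i = (j - 1 - i) + q by ring, hdq]
    · refine tsum_congr fun i => ?_
      rw [show j + (q:ℤ) + i = (j + i) + q by ring, hdq]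
  set z : ℤ → X := fun j => x j - y j with hz
  have hzT : ∀ j, T (z j) = z (j + 1) := by
    intro j
    simp only [hz]
    rw [map_sub, hyT]
    simp only [hd]
    abel
  have hzj : ∀ j, z j = (T ^ j) (z 0) := by
    intro j
    induction j using Int.induction_on with
    | zero => simp [one_app]
    | succ i ih => rw [zpow_add_one_apply, ← ih, hzT]
    | pred i ih =>
      apply T.injective
      rw [zpow_sub_one_apply, ← ih, hzT, sub_add_cancel]
  refine ⟨z 0, ⟨q, hq, ?_⟩, fun j => ?_⟩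
  · have := hzj q
    rw [zpow_natCast] at this
    rw [← this]
    have h1 : z (0 + q) = z 0 := by
      simp only [hz]
      rw [hyq, hxq]
    simpa using h1
  · rw [← hzj j]
    simp only [hz]
    rw [sub_sub_cancel]
    refine (hyn j).trans_lt ?_
    calc C * δ * (1 - ρ)⁻¹ + C * δ * (1 - ρ)⁻¹ = ε * (2 * C / (2 * C + 1)) := by
          rw [hδ]; field_simp; ring
      _ < ε * 1 := by
          gcongr
          rw [div_lt_one (by positivity)]; linarith
      _ = ε := mul_one _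

end

end Pool.Agent.Q74.Shift
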