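import Mathlib
import Pool.Agent.Q74.Shift.Core

/-! # Periodic shadowing implies one of the two weight conditions -/

set_option autoImplicit false

open Set Filter Topology

namespace Pool.Agent.Q74.Shift

theorem iter_bound {v : ℕ → ℝ} {ρ : ℝ} (hρ : 0 ≤ ρ) (i : ℕ) (h : ∀ j < i, v (j + 1) ≤ ρ * v j) :
    v i ≤ ρ ^ i * v 0 := by
  induction i with
  | zero => simp
  | succ i ih =>
    have h1 := ih fun j hj => h j (hj.trans (Nat.lt_succ_self i))
    have h2 := h i (Nat.lt_succ_self i)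
    calc v (i + 1) ≤ ρ * v i := h2
      _ ≤ ρ * (ρ ^ i * v 0) := by gcongr
      _ = _ := by ring

/-- the four exponential estimates, in one lemma -/
theorem exp_bound {v u : ℕ → ℝ} {M : ℝ} (hM : 1 ≤ M) (i : ℕ) (hu : ∀ j, 0 < u j)
    (h1 : ∀ j, v (j + 1) = v j - 1 / u j) (h2 : ∀ j < i, u j * v j ≤ M) :
    v i ≤ (1 - 1 / M) ^ i * v 0 := by
  have hM0 : 0 < M := by linarith
  have h3 : 1 / M ≤ 1 := (div_le_one hM0).2 hM
  refine iter_bound (by linarith) i fun j hj => ?_
  rw [h1]
  have h4 := h2 j hj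
  have h5 : v j / M ≤ 1 / u j := by
    rw [div_le_div_iff₀ hM0 (hu j)]
    linarith
  have : (1 - 1 / M) * v j = v j - v j / M := by ring
  linarith

section
variable {g G : ℤ → ℝ} (hg : ∀ n, 0 < g n) (hG : ∀ n, G (n + 1) = G n + 1 / g n)
include hg hG

theorem G_mono : Monotone G :=
  monotone_int_of_le_succ fun n => by
    rw [hG]
    have := hg n
    have : 0 < 1 / g n := by positivity
    linarith

theorem expansive_of_alt {M : ℝ} (hM : 1 ≤ M)
    (halt : ∀ l : ℤ, (∀ N : ℕ, g l * (G (l + N) - G l) ≤ M) ∨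
      (∀ N : ℕ, g l * (G (l + 1) - G (l + 1 - N)) ≤ M)) :
    ∃ (C ρ : ℝ) (A : Set ℤ), 0 < C ∧ 0 < ρ ∧ ρ < 1 ∧ (∀ n ∈ A, ∀ i : ℕ, g n ≤ C * ρ ^ i * g (n + i)) ∧
      (∀ n ∉ A, ∀ i : ℕ, g n ≤ C * ρ ^ i * g (n - i)) := by
  have hmono := G_mono hg hG
  set A : Set ℤ := {l | ∀ k, l ≤ k → ∀ N : ℕ, g k * (G (k + N) - G k) ≤ M ^ 2} with hA
  have hMM : M ≤ M ^ 2 := by nlinarith
  have hleft : ∀ l ∉ A, ∀ k, k ≤ l → ∀ N : ℕ, g k * (G (k + 1) - G (k + 1 - N)) ≤ M ^ 2 := by
    intro l hl k hkl N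
    by_contra hcon
    push Not at hcon
    simp only [hA, mem_ofPred_eq] at hl
    push Not at hl
    obtain ⟨k0, hk0, N0, hN0⟩ := hl
    have a1 : ∀ N : ℕ, g k0 * (G (k0 + 1) - G (k0 + 1 - N)) ≤ M := by
      rcases halt k0 with h | h
      · exact absurd (h N0) (by linarith)
      · exact h
    have a2 : ∀ N : ℕ, g k * (G (k + N) - G k) ≤ M := by
      rcases halt k with h | h
      · exact h
      · exact absurd (h N) (by linarith)
    obtain ⟨m, hm⟩ : ∃ m : ℕ, k0 = k + m := ⟨(k0 - k).toNat, by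
      rw [Int.toNat_of_nonneg (by linarith)]; ring⟩
    have b1 := a2 (m + N0)
    have e1 : k + ((m + N0 : ℕ) : ℤ) = k0 + N0 := by rw [hm]; push_cast; ring
    rw [e1] at b1
    have b2 : G k ≤ G k0 := hmono (hkl.trans hk0)
    have b3 := a1 (m + 1)
    have e2 : k0 + 1 - ((m + 1 : ℕ) : ℤ) = k := by rw [hm]; push_cast; ring
    rw [e2] at b3
    have b4 : G k + 1 / g k ≤ G (k0 + 1) := by
      rw [← hG]; exact hmono (by linarith)
    have hgk := hg k
    have hgk0 := hg k0
    -- g k0 ≤ M g k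
    have c1 : g k0 ≤ M * g k := by
      have : g k0 * (1 / g k) ≤ M := by
        calc g k0 * (1 / g k) ≤ g k0 * (G (k0 + 1) - G k) := by gcongr; linarith
          _ ≤ M := b3
      rw [mul_one_div, div_le_iff₀ hgk] at this
      exact this
    -- g k (G(k0+N0) - G k0) ≤ M
    have c2 : g k * (G (k0 + N0) - G k0) ≤ M := by
      calc g k * (G (k0 + N0) - G k0) ≤ g k * (G (k0 + N0) - G k) := by gcongr
        _ ≤ M := b1
    have c3 : 0 ≤ G (k0 + N0) - G k0 := by
      have : G k0 ≤ G (k0 + N0) := hmono (by linarith)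
      linarith
    have c4 : g k0 * (G (k0 + N0) - G k0) ≤ M ^ 2 := by
      calc g k0 * (G (k0 + N0) - G k0) ≤ (M * g k) * (G (k0 + N0) - G k0) := by gcongr
        _ = M * (g k * (G (k0 + N0) - G k0)) := by ring
        _ ≤ M * M := by gcongr
        _ = _ := by ring
    linarith
  set M' : ℝ := M ^ 2 + 1 with hM'
  have hM'1 : 1 ≤ M' := by rw [hM']; nlinarith
  have hM'0 : 0 < M' := by linarith
  have hM'2 : 1 < M' := by rw [hM']; nlinarith
  refine ⟨M', 1 - 1 / M', A, hM'0, ?_, ?_, ?_, ?_⟩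
  · have : 1 / M' < 1 := (div_lt_one hM'0).2 hM'2
    linarith
  · have : 0 < 1 / M' := by positivity
    linarith
  · intro n hn i
    have key := exp_bound (v := fun j : ℕ => G (n + i + 1) - G (n + j)) (u := fun j : ℕ => g (n + j)) hM'1 i
      (fun j => hg _) (fun j => by
        have : n + ((j + 1 : ℕ) : ℤ) = (n + j) + 1 := by push_cast; ring
        simp only [this, hG]; ring) (fun j hj => by
        have h1 := hn (n + j) (by linarith [(Nat.cast_nonneg j : (0:ℤ) ≤ j)]) (i + 1 - j)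
        have : n + (j:ℤ) + ((i + 1 - j : ℕ) : ℤ) = n + i + 1 := by omega
        rw [this] at h1
        linarith)
    simp only [Nat.cast_zero, add_zero] at key
    have h2 : G (n + i + 1) - G (n + i) = 1 / g (n + i) := by rw [hG]; ring
    rw [h2] at key
    have h3 := hn n le_rfl (i + 1)
    have : n + ((i + 1 : ℕ) : ℤ) = n + i + 1 := by push_cast; ring
    rw [this] at h3
    have hgn := hg n
    have hgi := hg (n + i)
    have hr : 0 ≤ (1 - 1 / M') ^ i := by
      have : 1 / M' ≤ 1 := (div_le_one hM'0).2 hM'1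
      exact pow_nonneg (by linarith) _
    rw [div_le_iff₀ hgi] at key
    calc g n = g n * 1 := by ring
      _ ≤ g n * ((1 - 1 / M') ^ i * (G (n + i + 1) - G n) * g (n + i)) := by gcongr
      _ = (g n * (G (n + i + 1) - G n)) * ((1 - 1 / M') ^ i * g (n + i)) := by ring
      _ ≤ M' * ((1 - 1 / M') ^ i * g (n + i)) := by gcongr; linarith
      _ = _ := by ring
  · intro n hn i
    have hl := hleft n hn
    have key := exp_bound (v := fun j : ℕ => G (n - j + 1) - G (n - i)) (u := fun j : ℕ => g (n - j)) hM'1 i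
      (fun j => hg _) (fun j => by
        have : n - ((j + 1 : ℕ) : ℤ) + 1 = n - j := by push_cast; ring
        simp only [this, hG]; ring) (fun j hj => by
        have h1 := hl (n - j) (by linarith [(Nat.cast_nonneg j : (0:ℤ) ≤ j)]) (i + 1 - j)
        have : n - (j:ℤ) + 1 - ((i + 1 - j : ℕ) : ℤ) = n - i := by omega
        rw [this] at h1
        linarith)
    simp only [Nat.cast_zero, sub_zero] at key
    have h2 : G (n - i + 1) - G (n - i) = 1 / g (n - i) := by rw [hG]; ring
    rw [h2] at key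
    have h3 := hl n le_rfl (i + 1)
    have : n + 1 - ((i + 1 : ℕ) : ℤ) = n - i := by push_cast; ring
    rw [this] at h3
    have hgn := hg n
    have hgi := hg (n - i)
    have hr : 0 ≤ (1 - 1 / M') ^ i := by
      have : 1 / M' ≤ 1 := (div_le_one hM'0).2 hM'1
      exact pow_nonneg (by linarith) _
    rw [div_le_iff₀ hgi] at key
    calc g n = g n * 1 := by ring
      _ ≤ g n * ((1 - 1 / M') ^ i * (G (n + 1) - G (n - i)) * g (n - i)) := by gcongr
      _ = (g n * (G (n + 1) - G (n - i))) * ((1 - 1 / M') ^ i * g (n - i)) := by ring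
      _ ≤ M' * ((1 - 1 / M') ^ i * g (n - i)) := by gcongr; linarith
      _ = _ := by ring

theorem hyperbolic_of_star {M : ℝ} (hM : 0 ≤ M) {a : ℤ} (ha : ∀ n, g n ≤ g a)
    (hstar : ∀ n₁ n₂ : ℤ, n₁ < n₂ → g n₁ * (G n₂ - G n₁) ≤ M ∨ g n₂ * (G n₂ - G n₁) ≤ M) :
    ∃ (C ρ : ℝ) (A : Set ℤ), 0 < C ∧ 0 < ρ ∧ ρ < 1 ∧ (∀ n ∈ A, ∀ i : ℕ, g (n + i) ≤ C * ρ ^ i * g n) ∧
      (∀ n ∉ A, ∀ i : ℕ, g (n - i) ≤ C * ρ ^ i * g n) := by
  have hmono := G_mono hg hG
  have hr : ∀ n, a ≤ n → g n * (G n - G a) ≤ M := by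
    intro n hn
    rcases eq_or_lt_of_le hn with h | h
    · rw [← h, sub_self, mul_zero]; exact hM
    · have h0 : 0 ≤ G n - G a := sub_nonneg.2 (hmono hn)
      rcases hstar a n h with h1 | h1
      · exact (mul_le_mul_of_nonneg_right (ha n) h0).trans h1
      · exact h1
  have hl : ∀ n, n ≤ a → g n * (G a - G n) ≤ M := by
    intro n hn
    rcases eq_or_lt_of_le hn with h | h
    · rw [h, sub_self, mul_zero]; exact hM
    · have h0 : 0 ≤ G a - G n := sub_nonneg.2 (hmono hn)
      rcases hstar n a h with h1 | h1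
      · exact h1
      · exact (mul_le_mul_of_nonneg_right (ha n) h0).trans h1
  set M' : ℝ := M + 2 with hM'
  have hM'1 : 1 ≤ M' := by linarith
  have hM'0 : 0 < M' := by linarith
  have hr' : ∀ n, a ≤ n → g n * (G (n + 1) - G a) ≤ M' := by
    intro n hn
    have h1 := hr n hn
    have h2 := hg n
    rw [hG]
    have : g n * (G n + 1 / g n - G a) = g n * (G n - G a) + 1 := by field_simp; ring
    rw [this]; linarith
  refine ⟨M', 1 - 1 / M', Ici a, hM'0, ?_, ?_, ?_, ?_⟩
  · have : 1 / M' < 1 := (div_lt_one hM'0).2 (by linarith)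
    linarith
  · have : 0 < 1 / M' := by positivity
    linarith
  · intro n hn i
    have hn : a ≤ n := hn
    have key := exp_bound (v := fun j : ℕ => G (n + i - j + 1) - G a) (u := fun j : ℕ => g (n + i - j)) hM'1 i
      (fun j => hg _) (fun j => by
        have : n + i - ((j + 1 : ℕ) : ℤ) + 1 = n + i - j := by push_cast; ring
        simp only [this, hG]; ring) (fun j hj => hr' _ (by omega))
    simp only [Nat.cast_zero, sub_zero] at key
    rw [add_sub_cancel_right] at key
    have h2 : 1 / g n ≤ G (n + 1) - G a := by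
      rw [hG]
      have : G a ≤ G n := hmono hn
      linarith
    have h3 := hr' (n + i) (by omega)
    have hgn := hg n
    have hgi := hg (n + i)
    have hr0 : 0 ≤ (1 - 1 / M') ^ i := by
      have : 1 / M' ≤ 1 := (div_le_one hM'0).2 hM'1
      exact pow_nonneg (by linarith) _
    have h4 : 1 ≤ g n * ((1 - 1 / M') ^ i * (G (n + i + 1) - G a)) := by
      have := h2.trans key
      rw [div_le_iff₀ hgn] at this
      linarith
    calc g (n + i) = g (n + i) * 1 := by ring
      _ ≤ g (n + i) * (g n * ((1 - 1 / M') ^ i * (G (n + i + 1) - G a))) := by gcongr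
      _ = (g (n + i) * (G (n + i + 1) - G a)) * ((1 - 1 / M') ^ i * g n) := by ring
      _ ≤ M' * ((1 - 1 / M') ^ i * g n) := by gcongr
      _ = _ := by ring
  · intro n hn i
    have hn : n < a := by simpa using hn
    have key := exp_bound (v := fun j : ℕ => G a - G (n - i + j)) (u := fun j : ℕ => g (n - i + j)) hM'1 i
      (fun j => hg _) (fun j => by
        have : n - i + ((j + 1 : ℕ) : ℤ) = n - i + j + 1 := by push_cast; ring
        simp only [this, hG]; ring) (fun j hj => (hl _ (by omega)).trans (by linarith))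
    simp only [Nat.cast_zero, add_zero] at key
    rw [sub_add_cancel] at key
    have h2 : 1 / g n ≤ G a - G n := by
      have : G (n + 1) ≤ G a := hmono (by omega)
      rw [hG] at this
      linarith
    have h3 := hl (n - i) (by omega)
    have hgn := hg n
    have hgi := hg (n - i)
    have hr0 : 0 ≤ (1 - 1 / M') ^ i := by
      have : 1 / M' ≤ 1 := (div_le_one hM'0).2 hM'1
      exact pow_nonneg (by linarith) _
    have h4 : 1 ≤ g n * ((1 - 1 / M') ^ i * (G a - G (n - i))) := by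
      have := h2.trans key
      rw [div_le_iff₀ hgn] at this
      linarith
    calc g (n - i) = g (n - i) * 1 := by ring
      _ ≤ g (n - i) * (g n * ((1 - 1 / M') ^ i * (G a - G (n - i)))) := by gcongr
      _ = (g (n - i) * (G a - G (n - i))) * ((1 - 1 / M') ^ i * g n) := by ring
      _ ≤ M' * ((1 - 1 / M') ^ i * g n) := by gcongr; linarith
      _ = _ := by ring

end

variable {𝕜 X : Type*} [RCLike 𝕜] [NormedAddCommGroup X] [NormedSpace 𝕜 X]

/-- Test sequences for the periodic shadowing property. -/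
theorem psp_test (S : SeqSpace 𝕜 X) {T : X ≃L[𝕜] X} {h : ℤ → 𝕜} (hh : ∀ n, h n ≠ 0)
    (hT : ∀ x n, S.c (T x) n = h n / h (n + 1) * S.c x (n + 1)) (hP : PSP T) :
    ∃ δ : ℝ, 0 < δ ∧ ∀ θ : ℤ → ℝ, (∃ N : ℕ, ∀ n : ℤ, (N:ℤ) ≤ |n| → θ n = 0) →
      (∀ n, |θ n - θ (n + 1)| * ‖h n‖ < δ) →
      ∃ κ : 𝕜, (∀ n, ‖((θ n : ℝ) : 𝕜) - κ‖ * ‖h n‖ < 1) ∧
        (κ ≠ 0 → Tendsto (fun n => ‖h n‖) cofinite (𝓝 0)) := by
  classical
  obtain ⟨δ, hδ, hsh⟩ := hP 1 one_pos
  refine ⟨δ, hδ, fun θ hsupp hθ => ?_⟩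
  obtain ⟨N, hN⟩ := hsupp
  set q : ℕ := 2 * N + 1 with hq
  set pos : ℤ → ℤ := fun j => (N - j) % q - N with hpos
  choose sg hsg hsgn using fun (n : ℤ) (a : 𝕜) => S.single n a
  set x : ℤ → X := fun j => sg (pos j) ((θ (pos j) : 𝕜) * h (pos j)) with hx
  have hq0 : (0:ℤ) < q := by omega
  have hrange : ∀ j, -(N:ℤ) ≤ pos j ∧ pos j ≤ N := by
    intro j
    have h0 : 0 ≤ ((N:ℤ) - j) % q := Int.emod_nonneg _ hq0.ne'
    have h1 : ((N:ℤ) - j) % q < q := Int.emod_lt_of_pos _ hq0
    simp only [hpos]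
    constructor <;> omega
  have hposq : ∀ j, pos (j + q) = pos j := by
    intro j
    simp only [hpos]
    rw [show (N:ℤ) - (j + q) = (N - j) - q * 1 by ring, Int.sub_mul_emod_self_left]
  have hposneg : ∀ n : ℤ, |n| ≤ N → pos (-n) = n := by
    intro n hn
    rw [abs_le] at hn
    simp only [hpos]
    rw [Int.emod_eq_of_lt (by omega) (by omega)]
    ring
  have hpossucc : ∀ j, pos (j + 1) = pos j - 1 ∨ (pos j = -N ∧ pos (j + 1) = N) := by
    intro j
    have h0 : 0 ≤ ((N:ℤ) - j) % q := Int.emod_nonneg _ hq0.ne'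
    have h1 : ((N:ℤ) - j) % q < q := Int.emod_lt_of_pos _ hq0
    rcases eq_or_lt_of_le h0 with h2 | h2
    · right
      simp only [hpos]
      rw [← h2]
      refine ⟨by ring, ?_⟩
      have h3 : ((N:ℤ) - (j + 1)) % q = q - 1 := by
        have : (N:ℤ) - (j + 1) = ((N - j) - q * ((N - j) / q) - 1 + q) + q * ((N - j) / q - 1) := by ring
        rw [this, Int.add_mul_emod_self_left]
        have h4 : (N:ℤ) - j - q * ((N - j) / q) = 0 := by
          have := Int.emod_def ((N:ℤ) - j) q
          rw [← h2] at this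
          linarith
        rw [h4]
        rw [Int.emod_eq_of_lt (by omega) (by omega)]
        ring
      rw [h3]
      push_cast [hq]
      ring
    · left
      simp only [hpos]
      have h3 : ((N:ℤ) - (j + 1)) % q = ((N:ℤ) - j) % q - 1 := by
        have : (N:ℤ) - (j + 1) = (((N:ℤ) - j) % q - 1) + q * ((N - j) / q) := by
          have := Int.emod_def ((N:ℤ) - j) q
          linarith
        rw [this, Int.add_mul_emod_self_left]
        exact Int.emod_eq_of_lt (by omega) (by omega)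
      rw [h3]; ring
  have hθN : θ N = 0 := hN N (by simp)
  have hθN' : θ (-N) = 0 := hN (-N) (by simp)
  have hps : ∀ j, ‖T (x j) - x (j + 1)‖ < δ := by
    intro j
    rcases hpossucc j with hc | ⟨hc1, hc2⟩
    · -- a single coordinate
      have e : T (x j) - x (j + 1) =
          sg (pos j - 1) (((θ (pos j) - θ (pos j - 1) : ℝ) : 𝕜) * h (pos j - 1)) := by
        refine S.inj _ _ fun n => ?_
        rw [map_sub, Pi.sub_apply, hT, hx]
        simp only
        rw [hsg, hsg, hsg, hc]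
        by_cases hn : n = pos j - 1
        · subst hn
          have := hh (pos j)
          rw [sub_add_cancel, if_pos rfl, if_pos rfl, if_pos rfl]
          push_cast
          field_simp
        · rw [if_neg (fun h => hn (by omega)), if_neg hn, if_neg hn]
          simp
      rw [e]
      refine (hsgn _ _).trans_lt ?_
      rw [norm_mul, RCLike.norm_ofReal, abs_sub_comm]
      have := hθ (pos j - 1)
      rwa [sub_add_cancel] at this
    · have z1 : x j = 0 := by
        refine S.inj _ _ fun n => ?_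
        rw [hx]; simp only
        rw [hsg, hc1, hθN']
        simp
      have z2 : x (j + 1) = 0 := by
        refine S.inj _ _ fun n => ?_
        rw [hx]; simp only
        rw [hsg, hc2, hθN]
        simp
      rw [z1, z2, map_zero, sub_zero, norm_zero]
      exact hδ
  obtain ⟨y, ⟨q', hq', hy⟩, hsha⟩ := hsh x ⟨q, by omega, fun j => by simp only [hx, hposq]⟩ hps
  set κ : 𝕜 := S.c y 0 / h 0 with hκ
  refine ⟨κ, fun n => ?_, fun hκ0 => ?_⟩
  · have h1 := (S.coord_le (x (-n) - (T ^ (-n)) y) n).trans_lt (hsha (-n))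
    rw [map_sub, Pi.sub_apply, coord_zpow S hh hT] at h1
    have h2 : S.c (x (-n)) n = (θ n : 𝕜) * h n := by
      rw [hx]; simp only
      rw [hsg]
      by_cases hn : |n| ≤ N
      · rw [hposneg n hn, if_pos rfl]
      · push Not at hn
        have : n ≠ pos (-n) := by
          intro h3
          have := hrange (-n)
          rw [← h3] at this
          rw [lt_abs] at hn
          omega
        rw [if_neg this, hN n hn.le]
        simp
    rw [h2, add_neg_cancel] at h1
    have h3 : (θ n : 𝕜) * h n - h n / h 0 * S.c y 0 = ((θ n : 𝕜) - κ) * h n := by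
      rw [hκ]; ring
    rwa [h3, norm_mul] at h1
  · -- periodic points force decay
    have hzp : ∀ m : ℤ, (T ^ ((q':ℤ) * m)) y = y := by
      have h1 : ∀ m : ℕ, (T ^ ((q':ℤ) * m)) y = y := by
        intro m
        induction m with
        | zero => simp [one_app]
        | succ m ih =>
          have : (q':ℤ) * ((m + 1 : ℕ) : ℤ) = (q':ℤ) * m + q' := by push_cast; ring
          rw [this, zpow_add, zpow_natCast]
          show (T ^ ((q':ℤ) * m)) ((T ^ q') y) = y
          rw [hy, ih]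
      intro m
      obtain ⟨n, rfl | rfl⟩ := m.eq_nat_or_neg
      · exact h1 n
      · have h2 : (T ^ ((q':ℤ) * (-(n:ℤ)))) ((T ^ ((q':ℤ) * n)) y) = y := by
          have : (T ^ ((q':ℤ) * (-(n:ℤ)))) ((T ^ ((q':ℤ) * n)) y) = (T ^ ((q':ℤ) * (-(n:ℤ)) + (q':ℤ) * n)) y := by
            rw [zpow_add]; rfl
          rw [this, mul_neg, neg_add_cancel, zpow_zero]; rfl
        rwa [h1 n] at h2
    have hcm : ∀ m : ℤ, S.c y ((q':ℤ) * m) = κ * h ((q':ℤ) * m) := by
      intro m
      have h1 := coord_zpow S hh hT ((q':ℤ) * m) y 0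
      rw [hzp m, zero_add] at h1
      have h2 := hh 0
      have h3 := hh ((q':ℤ) * m)
      rw [hκ]
      field_simp at h1 ⊢
      linear_combination -h1
    rw [Metric.tendsto_nhds]
    intro ε hε
    have hall : ∀ᶠ n in cofinite, ∀ r ∈ Finset.range q', ‖S.c ((T ^ (r:ℤ)) y) n‖ < ε * ‖κ‖ := by
      rw [Filter.eventually_all_finset]
      intro r _
      have := (S.lim ((T ^ (r:ℤ)) y)).norm
      rw [norm_zero] at this
      exact this.eventually_lt_const (mul_pos hε (norm_pos_iff.2 hκ0))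
    filter_upwards [hall] with n hn
    have hq'0 : (0:ℤ) < q' := by omega
    have h0 : 0 ≤ (-n) % (q':ℤ) := Int.emod_nonneg _ hq'0.ne'
    have h1 : (-n) % (q':ℤ) < q' := Int.emod_lt_of_pos _ hq'0
    have h2 := hn ((-n) % (q':ℤ)).toNat (by rw [Finset.mem_range]; omega)
    rw [Int.toNat_of_nonneg h0, coord_zpow S hh hT] at h2
    have h3 : n + (-n) % (q':ℤ) = q' * (-((-n) / q')) := by
      have := Int.emod_def (-n) (q':ℤ)
      linarith
    rw [h3, hcm] at h2
    have h4 := hh ((q':ℤ) * (-((-n) / q')))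
    have h5 : h n / h ((q':ℤ) * (-((-n) / q'))) * (κ * h ((q':ℤ) * (-((-n) / q')))) = h n * κ := by
      field_simp
    rw [h5, norm_mul] at h2
    rw [Real.dist_eq, sub_zero, abs_norm]
    exact lt_of_mul_lt_mul_right h2 (norm_nonneg κ)

/-- Necessity of the weight conditions. -/
theorem weights_of_psp (S : SeqSpace 𝕜 X) {T : X ≃L[𝕜] X} {h : ℤ → 𝕜} (hh : ∀ n, h n ≠ 0)
    (hT : ∀ x n, S.c (T x) n = h n / h (n + 1) * S.c x (n + 1)) (hP : PSP T)
    {G : ℤ → ℝ} (hG : ∀ n, G (n + 1) = G n + 1 / ‖h n‖) :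
    (∃ (C ρ : ℝ) (A : Set ℤ), 0 < C ∧ 0 < ρ ∧ ρ < 1 ∧
      (∀ n ∈ A, ∀ i : ℕ, ‖h n‖ ≤ C * ρ ^ i * ‖h (n + i)‖) ∧
      (∀ n ∉ A, ∀ i : ℕ, ‖h n‖ ≤ C * ρ ^ i * ‖h (n - i)‖)) ∨
    (∃ (C ρ : ℝ) (A : Set ℤ), 0 < C ∧ 0 < ρ ∧ ρ < 1 ∧
      (∀ n ∈ A, ∀ i : ℕ, ‖h (n + i)‖ ≤ C * ρ ^ i * ‖h n‖) ∧
      (∀ n ∉ A, ∀ i : ℕ, ‖h (n - i)‖ ≤ C * ρ ^ i * ‖h n‖)) := by
  have hg : ∀ n, 0 < ‖h n‖ := fun n => norm_pos_iff.2 (hh n)
  have hmono := G_mono hg hG
  obtain ⟨δ, hδ, htest⟩ := psp_test S hh hT hP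
  set δ' : ℝ := δ / 2 with hδ'
  have hδ'0 : 0 < δ' := by positivity
  have hδ'1 : δ' < δ := by rw [hδ']; linarith
  by_cases halt : ∀ l : ℤ, (∀ N : ℕ, ‖h l‖ * (G (l + N) - G l) ≤ 2 / δ' + 1) ∨
      (∀ N : ℕ, ‖h l‖ * (G (l + 1) - G (l + 1 - N)) ≤ 2 / δ' + 1)
  · left
    have : 0 < 2 / δ' := by positivity
    exact expansive_of_alt hg hG (by linarith) halt
  · right
    push Not at halt
    obtain ⟨l, ⟨N1, hN1⟩, ⟨N2, hN2⟩⟩ := halt
    have hgl := hg l
    -- first test: decay at infinity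
    have hdecay : Tendsto (fun n => ‖h n‖) cofinite (𝓝 0) := by
      obtain ⟨κ, hκ, hκ0⟩ := htest (fun n => max 0 (2 / ‖h l‖ - δ' * |G n - G l|))
        ⟨(|l| + N1 + N2 + 1).toNat, fun n hn => by
          rw [Int.toNat_of_nonneg (by positivity)] at hn
          refine max_eq_left ?_
          have hcase : l + N1 ≤ n ∨ n ≤ l + 1 - N2 := by
            rcases le_total 0 n with h0 | h0
            · left
              rw [abs_of_nonneg h0] at hn
              have := le_abs_self l
              omega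
            · right
              rw [abs_of_nonpos h0] at hn
              have := neg_abs_le l
              omega
          have hkey : 2 / ‖h l‖ ≤ δ' * |G n - G l| := by
            rcases hcase with hc | hc
            · have h1 : G (l + N1) ≤ G n := hmono hc
              have h2 : (2 / δ' + 1) < ‖h l‖ * (G n - G l) := lt_of_lt_of_le hN1 (by gcongr)
              have h3 : 2 / δ' < ‖h l‖ * (G n - G l) := by linarith
              rw [div_lt_iff₀ hδ'0] at h3
              rw [div_le_iff₀ hgl]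
              have h4 := le_abs_self (G n - G l)
              calc (2:ℝ) ≤ ‖h l‖ * (G n - G l) * δ' := h3.le
                _ ≤ ‖h l‖ * |G n - G l| * δ' := by gcongr
                _ = _ := by ring
            · have h1 : G n ≤ G (l + 1 - N2) := hmono hc
              have h2 : (2 / δ' + 1) < ‖h l‖ * (G (l + 1) - G n) := lt_of_lt_of_le hN2 (by gcongr)
              rw [hG] at h2
              have h2' : ‖h l‖ * (G l + 1 / ‖h l‖ - G n) = ‖h l‖ * (G l - G n) + 1 := by field_simp; ring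
              rw [h2'] at h2
              have h3 : 2 / δ' < ‖h l‖ * (G l - G n) := by linarith
              rw [div_lt_iff₀ hδ'0] at h3
              rw [div_le_iff₀ hgl]
              have h4 := neg_abs_le (G n - G l)
              calc (2:ℝ) ≤ ‖h l‖ * (G l - G n) * δ' := h3.le
                _ ≤ ‖h l‖ * |G n - G l| * δ' := by gcongr; linarith
                _ = _ := by ring
          linarith⟩
        (fun n => by
          have h1 : |max 0 (2 / ‖h l‖ - δ' * |G n - G l|) - max 0 (2 / ‖h l‖ - δ' * |G (n + 1) - G l|)| ≤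
              δ' * (1 / ‖h n‖) := by
            rw [max_comm 0, max_comm 0]
            refine (abs_max_sub_max_le_abs _ _ _).trans ?_
            have h2 : (2 / ‖h l‖ - δ' * |G n - G l|) - (2 / ‖h l‖ - δ' * |G (n + 1) - G l|) =
                δ' * (|G (n + 1) - G l| - |G n - G l|) := by ring
            rw [h2, abs_mul, abs_of_pos hδ'0]
            gcongr
            refine (abs_abs_sub_abs_le_abs_sub _ _).trans ?_
            rw [hG]
            have : G n + 1 / ‖h n‖ - G l - (G n - G l) = 1 / ‖h n‖ := by ring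
            rw [this, abs_of_nonneg (by positivity)]
          have hgn := hg n
          calc _ ≤ δ' * (1 / ‖h n‖) * ‖h n‖ := by gcongr
            _ = δ' := by field_simp
            _ < δ := hδ'1)
      refine hκ0 ?_
      rintro rfl
      have h1 := hκ l
      rw [sub_zero, RCLike.norm_ofReal, sub_self, abs_zero, mul_zero, sub_zero,
        max_eq_right (by positivity), abs_of_pos (by positivity), div_mul_cancel₀ _ hgl.ne'] at h1
      norm_num at h1
    -- maximum of `‖h‖`
    have hmax : ∃ a : ℤ, ∀ n, ‖h n‖ ≤ ‖h a‖ := by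
      have hfin : {n : ℤ | ¬ ‖h n‖ < ‖h 0‖}.Finite := hdecay.eventually_lt_const (hg 0)
      obtain ⟨a, ha, hamax⟩ := Set.exists_max_image _ (fun n => ‖h n‖) hfin ⟨0, by simp⟩
      refine ⟨a, fun n => ?_⟩
      by_cases hn : ‖h n‖ < ‖h 0‖
      · exact hn.le.trans (hamax 0 (by simp))
      · exact hamax n hn
    obtain ⟨a, ha⟩ := hmax
    refine hyperbolic_of_star hg hG (M := 2 / δ') (by positivity) ha fun n₁ n₂ h12 => ?_
    by_contra hcon
    push Not at hcon
    obtain ⟨hc1, hc2⟩ := hcon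
    set Θ : ℝ := δ' * (G n₂ - G n₁) with hΘ
    have hG12 : 0 ≤ G n₂ - G n₁ := sub_nonneg.2 (hmono h12.le)
    have hΘ0 : 0 ≤ Θ := by positivity
    -- far away point
    have hfar : ∃ N : ℤ, n₂ < N ∧ Θ * ‖h N‖ < δ := by
      have h1 : Tendsto (fun n : ℤ => Θ * ‖h n‖) cofinite (𝓝 (Θ * 0)) := hdecay.const_mul Θ
      rw [mul_zero] at h1
      have h2 := h1.eventually_lt_const hδ
      have h3 : ∃ᶠ n : ℤ in cofinite, n₂ < n := by
        rw [Filter.frequently_cofinite_iff_infinite]
        exact Set.Ioi_infinite n₂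
      obtain ⟨N, h4, h5⟩ := (h3.and_eventually h2).exists
      exact ⟨N, h4, h5⟩
    obtain ⟨N, hN, hNδ⟩ := hfar
    set cl : ℤ → ℤ := fun n => max n₁ (min n n₂) with hcl
    obtain ⟨κ, hκ, -⟩ := htest (fun n => if n ≤ N then δ' * (G (cl n) - G n₁) else 0)
      ⟨(|n₁| + |N| + 1).toNat, fun n hn => by
        rw [Int.toNat_of_nonneg (by positivity)] at hn
        split_ifs with hnN
        · have : n ≤ n₁ := by
            rcases le_total 0 n with h0 | h0
            · rw [abs_of_nonneg h0] at hn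
              have := le_abs_self N
              have := abs_nonneg n₁
              omega
            · rw [abs_of_nonpos h0] at hn
              have := neg_abs_le n₁
              have := abs_nonneg N
              omega
          have : cl n = n₁ := by simp only [hcl]; omega
          rw [this]; simp
        · rfl⟩
      (fun n => by
        have hgn := hg n
        rcases lt_trichotomy n N with hnN | hnN | hnN
        · rw [if_pos hnN.le, if_pos (by omega : n + 1 ≤ N)]
          have h1 : cl (n + 1) = cl n ∨ (cl n = n ∧ cl (n + 1) = n + 1) := by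
            simp only [hcl]; omega
          rcases h1 with h1 | ⟨h1, h2⟩
          · rw [h1]; simp [hδ]
          · rw [h1, h2, hG]
            have : δ' * (G n - G n₁) - δ' * (G n + 1 / ‖h n‖ - G n₁) = -(δ' * (1 / ‖h n‖)) := by ring
            rw [this, abs_neg, abs_of_nonneg (by positivity)]
            calc δ' * (1 / ‖h n‖) * ‖h n‖ = δ' := by field_simp
              _ < δ := hδ'1
        · rw [if_pos hnN.le, if_neg (by omega), sub_zero]
          have : cl n = n₂ := by simp only [hcl]; omega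
          rw [this, ← hΘ, abs_of_nonneg hΘ0, hnN]
          exact hNδ
        · rw [if_neg (by omega), if_neg (by omega)]
          simp [hδ])
    have k1 := hκ n₁
    have k2 := hκ n₂
    rw [if_pos (by omega)] at k1
    rw [if_pos (by omega)] at k2
    have hcl1 : cl n₁ = n₁ := by simp only [hcl]; omega
    have hcl2 : cl n₂ = n₂ := by simp only [hcl]; omega
    rw [hcl1, sub_self, mul_zero] at k1
    rw [hcl2, ← hΘ] at k2
    have hg1 := hg n₁
    have hg2 := hg n₂
    have k1' : ‖κ‖ < 1 / ‖h n₁‖ := by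
      rw [lt_div_iff₀ hg1]
      simpa using k1
    have k2' : ‖((Θ : ℝ) : 𝕜) - κ‖ < 1 / ‖h n₂‖ := by
      rwa [lt_div_iff₀ hg2]
    have k3 : Θ < 1 / ‖h n₁‖ + 1 / ‖h n₂‖ := by
      have h1 : ‖((Θ : ℝ) : 𝕜)‖ ≤ ‖((Θ : ℝ) : 𝕜) - κ‖ + ‖κ‖ := by
        calc ‖((Θ : ℝ) : 𝕜)‖ = ‖(((Θ : ℝ) : 𝕜) - κ) + κ‖ := by rw [sub_add_cancel]
          _ ≤ _ := norm_add_le _ _
      rw [RCLike.norm_ofReal, abs_of_nonneg hΘ0] at h1
      linarith
    have k4 : 2 * (1 / ‖h n₁‖) < Θ := by
      rw [div_lt_iff₀ hδ'0] at hc1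
      rw [mul_one_div, div_lt_iff₀ hg1]
      calc (2:ℝ) < ‖h n₁‖ * (G n₂ - G n₁) * δ' := hc1
        _ = _ := by rw [hΘ]; ring
    have k5 : 2 * (1 / ‖h n₂‖) < Θ := by
      rw [div_lt_iff₀ hδ'0] at hc2
      rw [mul_one_div, div_lt_iff₀ hg2]
      calc (2:ℝ) < ‖h n₂‖ * (G n₂ - G n₁) * δ' := hc2
        _ = _ := by rw [hΘ]; ring
    linarith

end Pool.Agent.Q74.Shift
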