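import Mathlib
import Pool.Agent.Q74.Shift.Weights

/-! # `ℓ_p(ℤ)` and `c₀(ℤ)` as sequence spaces; the weighted shift operators; the characterisation -/

set_option autoImplicit false

open Set Filter Topology
open scoped ENNReal ZeroAtInfty

namespace Pool.Agent.Q74.Shift

theorem exists_rec {α : Type*} (a : α) (F : ℤ → α ≃ α) : ∃ h : ℤ → α, ∀ n, h (n + 1) = F n (h n) := by
  let P : ℕ → α := fun m => Nat.rec a (fun k x => F k x) m
  let Q : ℕ → α := fun m => Nat.rec a (fun k x => (F (-((k:ℤ) + 1))).symm x) m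
  have hP : ∀ m, P (m + 1) = F m (P m) := fun m => rfl
  have hQ : ∀ m : ℕ, Q (m + 1) = (F (-((m:ℤ) + 1))).symm (Q m) := fun m => rfl
  have h0 : P 0 = Q 0 := rfl
  refine ⟨fun n => if 0 ≤ n then P n.toNat else Q (-n).toNat, fun n => ?_⟩
  show (if 0 ≤ n + 1 then P (n + 1).toNat else Q (-(n + 1)).toNat) =
    F n (if 0 ≤ n then P n.toNat else Q (-n).toNat)
  rcases lt_trichotomy n (-1) with hn | hn | hn
  · obtain ⟨m, rfl⟩ : ∃ m : ℕ, n = -((m:ℤ) + 1) := ⟨(-n - 1).toNat, by omega⟩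
    rw [if_neg (by omega), if_neg (by omega)]
    have e1 : (-(-((m:ℤ) + 1) + 1)).toNat = m := by omega
    have e2 : (-(-((m:ℤ) + 1))).toNat = m + 1 := by omega
    rw [e1, e2, hQ, Equiv.apply_symm_apply]
  · subst hn
    rw [if_pos (by omega), if_neg (by omega)]
    have e1 : ((-1:ℤ) + 1).toNat = 0 := by norm_num
    have e2 : (-(-1:ℤ)).toNat = 0 + 1 := by norm_num
    rw [e1, e2, hQ, h0]
    have : (-(((0:ℕ):ℤ) + 1)) = -1 := by norm_num
    rw [this, Equiv.apply_symm_apply]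
  · obtain ⟨m, rfl⟩ : ∃ m : ℕ, n = m := ⟨n.toNat, by omega⟩
    rw [if_pos (by omega), if_pos (by omega)]
    have e1 : ((m:ℤ) + 1).toNat = m + 1 := by omega
    rw [e1, hP, Int.toNat_natCast]

variable {𝕜 X : Type*} [RCLike 𝕜] [NormedAddCommGroup X] [NormedSpace 𝕜 X]

theorem exists_h (w : ℤ → 𝕜) (hw : ∀ n, w n ≠ 0) :
    ∃ h : ℤ → 𝕜, (∀ n, h n ≠ 0) ∧ ∀ n, w (n + 1) = h n / h (n + 1) := by
  obtain ⟨h, hh⟩ := exists_rec (1 : 𝕜ˣ) (fun n => Equiv.mulRight (Units.mk0 (w (n + 1)) (hw _))⁻¹)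
  refine ⟨fun n => (h n : 𝕜), fun n => Units.ne_zero _, fun n => ?_⟩
  rw [eq_div_iff (Units.ne_zero _), hh]
  simp only [Equiv.coe_mulRight, Units.val_mul, Units.val_inv_eq_inv_val, Units.val_mk0]
  have := hw (n + 1)
  field_simp

theorem exists_G (g : ℤ → ℝ) : ∃ G : ℤ → ℝ, ∀ n, G (n + 1) = G n + 1 / g n := by
  obtain ⟨G, hG⟩ := exists_rec (0 : ℝ) (fun n => Equiv.addRight (1 / g n))
  exact ⟨G, fun n => by rw [hG]; rfl⟩

/-- The weighted shift as an operator on an abstract sequence space. -/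
theorem exists_shift (S : SeqSpace 𝕜 X) {w : ℤ → 𝕜} {M m : ℝ} (hM : ∀ n, ‖w n‖ ≤ M) (hm : 0 < m)
    (hwm : ∀ n, m ≤ ‖w n‖) :
    ∃ T : X ≃L[𝕜] X, ∀ x n, S.c (T x) n = w (n + 1) * S.c x (n + 1) := by
  have hw : ∀ n, w n ≠ 0 := fun n => norm_pos_iff.1 (hm.trans_le (hwm n))
  have hM0 : 0 ≤ M := (norm_nonneg _).trans (hM 0)
  choose B hB hBn using fun x : X => S.dom x 1 M (fun n => w (n + 1) * S.c x (n + 1)) hM0
    (fun n => by rw [norm_mul]; gcongr; exact hM _)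
  choose B' hB' hBn' using fun x : X => S.dom x (-1) (1 / m) (fun n => (w n)⁻¹ * S.c x (n + -1))
    (by positivity) (fun n => by
      rw [norm_mul, norm_inv, one_div]
      gcongr
      exact hwm _)
  let L : X →ₗ[𝕜] X :=
    { toFun := B
      map_add' := fun x y => S.inj _ _ fun n => by
        rw [map_add, Pi.add_apply, hB, hB, hB, map_add, Pi.add_apply]; ring
      map_smul' := fun a x => S.inj _ _ fun n => by
        rw [map_smul, Pi.smul_apply, hB, hB, map_smul, Pi.smul_apply]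
        simp only [smul_eq_mul, RingHom.id_apply]; ring }
  let L' : X →ₗ[𝕜] X :=
    { toFun := B'
      map_add' := fun x y => S.inj _ _ fun n => by
        rw [map_add, Pi.add_apply, hB', hB', hB', map_add, Pi.add_apply]; ring
      map_smul' := fun a x => S.inj _ _ fun n => by
        rw [map_smul, Pi.smul_apply, hB', hB', map_smul, Pi.smul_apply]
        simp only [smul_eq_mul, RingHom.id_apply]; ring }
  refine ⟨ContinuousLinearEquiv.equivOfInverse (L.mkContinuous M hBn) (L'.mkContinuous (1 / m) hBn')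
    (fun x => ?_) (fun x => ?_), fun x n => ?_⟩
  · refine S.inj _ _ fun n => ?_
    show S.c (B' (B x)) n = _
    rw [hB', hB, neg_add_cancel_right, ← mul_assoc, inv_mul_cancel₀ (hw n), one_mul]
  · refine S.inj _ _ fun n => ?_
    show S.c (B (B' x)) n = _
    rw [hB, hB', add_neg_cancel_right, ← mul_assoc, mul_inv_cancel₀ (hw _), one_mul]
  · exact hB x n

/-- `ℓ_p(ℤ)` -/
noncomputable def lpSeq (𝕜 : Type*) [RCLike 𝕜] (p : ℝ≥0∞) [hp1 : Fact (1 ≤ p)] (hp : p ≠ ⊤) :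
    SeqSpace 𝕜 (lp (fun _ : ℤ => 𝕜) p) where
  c := { toFun := fun x n => x n, map_add' := fun _ _ => rfl, map_smul' := fun _ _ => rfl }
  inj := fun x y h => lp.ext (funext h)
  coord_le := fun x n => lp.norm_apply_le_norm (by
    intro h; have := hp1.out; rw [h] at this; exact absurd this (by simp)) x n
  dom := fun x i C y hC hy => by
    have hp0 : p ≠ 0 := by
      intro h; have := hp1.out; rw [h] at this; exact absurd this (by simp)
    have hpr : 0 < p.toReal := ENNReal.toReal_pos hp0 hp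
    have key : ∀ s : Finset ℤ, ∑ n ∈ s, ‖y n‖ ^ p.toReal ≤ (C * ‖x‖) ^ p.toReal := by
      intro s
      calc ∑ n ∈ s, ‖y n‖ ^ p.toReal ≤ ∑ n ∈ s, C ^ p.toReal * ‖x (n + i)‖ ^ p.toReal := by
            refine Finset.sum_le_sum fun n _ => ?_
            rw [← Real.mul_rpow hC (norm_nonneg _)]
            exact Real.rpow_le_rpow (norm_nonneg _) (hy n) hpr.le
        _ = C ^ p.toReal * ∑ n ∈ s.map (addRightEmbedding i), ‖x n‖ ^ p.toReal := by
            rw [← Finset.mul_sum, Finset.sum_map]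
            rfl
        _ ≤ C ^ p.toReal * ‖x‖ ^ p.toReal := by
            gcongr
            exact lp.sum_rpow_le_norm_rpow hpr x _
        _ = _ := by rw [Real.mul_rpow hC (norm_nonneg _)]
    refine ⟨⟨y, memℓp_gen' key⟩, fun n => rfl, lp.norm_le_of_forall_sum_le hpr (by positivity) key⟩
  lim := fun x => by
    have hp0 : p ≠ 0 := by
      intro h; have := hp1.out; rw [h] at this; exact absurd this (by simp)
    have hpr : 0 < p.toReal := ENNReal.toReal_pos hp0 hp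
    have h1 := ((lp.memℓp x).summable hpr).tendsto_cofinite_zero
    rw [tendsto_zero_iff_norm_tendsto_zero]
    have h2 := h1.rpow_const (p := 1 / p.toReal) (Or.inr (by positivity))
    rw [Real.zero_rpow (by positivity)] at h2
    refine h2.congr fun n => ?_
    rw [← Real.rpow_mul (norm_nonneg _), mul_one_div_cancel hpr.ne', Real.rpow_one]
    rfl
  single := fun n a => by
    have hp0 : 0 < p := zero_lt_one.trans_le hp1.out
    refine ⟨lp.single (E := fun _ : ℤ => 𝕜) p n a, fun m => ?_, (lp.norm_single (E := fun _ : ℤ => 𝕜) hp0 n a).le⟩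
    show lp.single (E := fun _ : ℤ => 𝕜) p n a m = _
    rw [lp.single_apply, Pi.single_apply]

/-- `c₀(ℤ)` -/
noncomputable def c0Seq (𝕜 : Type*) [RCLike 𝕜] : SeqSpace 𝕜 C₀(ℤ, 𝕜) where
  c := { toFun := fun x n => x n, map_add' := fun _ _ => rfl, map_smul' := fun _ _ => rfl }
  inj := fun x y h => ZeroAtInftyContinuousMap.ext h
  coord_le := fun x n => x.toBCF.norm_coe_le_norm n
  dom := fun x i C y hC hy => by
    have hx : Tendsto x (cofinite : Filter ℤ) (𝓝 0) := by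
      have := x.zero_at_infty'
      rwa [cocompact_eq_cofinite] at this
    have hlim : Tendsto y (cocompact ℤ) (𝓝 0) := by
      rw [cocompact_eq_cofinite, tendsto_zero_iff_norm_tendsto_zero]
      have h1 : Tendsto (fun n : ℤ => C * ‖x (n + i)‖) cofinite (𝓝 0) := by
        have h2 : Tendsto (fun n : ℤ => n + i) cofinite cofinite :=
          (add_left_injective i).tendsto_cofinite
        have h3 := ((hx.comp h2).norm).const_mul C
        rw [norm_zero, mul_zero] at h3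
        exact h3
      exact squeeze_zero (fun n => norm_nonneg _) hy h1
    refine ⟨⟨⟨y, continuous_of_discreteTopology⟩, hlim⟩, fun n => rfl, ?_⟩
    rw [← ZeroAtInftyContinuousMap.norm_toBCF_eq_norm]
    refine (BoundedContinuousFunction.norm_le (by positivity)).2 fun n => ?_
    refine (hy n).trans ?_
    gcongr
    exact x.toBCF.norm_coe_le_norm _
  lim := fun x => by
    have := x.zero_at_infty'
    rwa [cocompact_eq_cofinite] at this
  single := fun n a => by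
    classical
    have hlim : Tendsto (fun m : ℤ => if m = n then a else 0) (cocompact ℤ) (𝓝 0) := by
      rw [cocompact_eq_cofinite]
      refine tendsto_nhds_of_eventually_eq ?_
      have : ∀ᶠ m : ℤ in cofinite, m ≠ n := (Set.finite_singleton n).compl_mem_cofinite
      filter_upwards [this] with m hm
      rw [if_neg hm]
    refine ⟨⟨⟨_, continuous_of_discreteTopology⟩, hlim⟩, fun m => rfl, ?_⟩
    rw [← ZeroAtInftyContinuousMap.norm_toBCF_eq_norm]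
    refine (BoundedContinuousFunction.norm_le (norm_nonneg _)).2 fun m => ?_
    show ‖(if m = n then a else 0)‖ ≤ _
    split_ifs
    · exact le_rfl
    · simp

/-- products of the weights -/
theorem prod_h {w h : ℤ → 𝕜} (hh : ∀ n, h n ≠ 0) (hw : ∀ n, w (n + 1) = h n / h (n + 1)) (n : ℤ) (i : ℕ) :
    ∏ k ∈ Finset.range i, ‖w (n + k + 1)‖ = ‖h n‖ / ‖h (n + i)‖ := by
  induction i with
  | zero => simp [hh n]
  | succ i ih =>
    rw [Finset.prod_range_succ, ih, hw, norm_div]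
    have h1 : 0 < ‖h (n + i)‖ := norm_pos_iff.2 (hh _)
    have e : n + ((i + 1 : ℕ) : ℤ) = n + i + 1 := by push_cast; ring
    rw [e]
    field_simp

/-- Uniform contraction forward on `A`, uniform dilation backward off `A`. -/
def UnifExp (w : ℤ → 𝕜) : Prop :=
  ∃ (C ρ : ℝ) (A : Set ℤ), 0 < C ∧ 0 < ρ ∧ ρ < 1 ∧
    (∀ n ∈ A, ∀ i : ℕ, ∏ k ∈ Finset.range i, ‖w (n + k + 1)‖ ≤ C * ρ ^ i) ∧
    (∀ n ∉ A, ∀ i : ℕ, (∏ k ∈ Finset.range i, ‖w (n - i + k + 1)‖)⁻¹ ≤ C * ρ ^ i)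

/-- Uniform dilation forward on `A`, uniform contraction backward off `A`. -/
def GenHyp (w : ℤ → 𝕜) : Prop :=
  ∃ (C ρ : ℝ) (A : Set ℤ), 0 < C ∧ 0 < ρ ∧ ρ < 1 ∧
    (∀ n ∈ A, ∀ i : ℕ, (∏ k ∈ Finset.range i, ‖w (n + k + 1)‖)⁻¹ ≤ C * ρ ^ i) ∧
    (∀ n ∉ A, ∀ i : ℕ, ∏ k ∈ Finset.range i, ‖w (n - i + k + 1)‖ ≤ C * ρ ^ i)

/-- The characterisation of the periodic shadowing property. -/
theorem psp_iff [CompleteSpace X] (S : SeqSpace 𝕜 X) {w : ℤ → 𝕜} (hw0 : ∀ n, w n ≠ 0) {T : X ≃L[𝕜] X}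
    (hT : ∀ x n, S.c (T x) n = w (n + 1) * S.c x (n + 1)) : PSP T ↔ UnifExp w ∨ GenHyp w := by
  obtain ⟨h, hh, hw⟩ := exists_h w hw0
  have hT' : ∀ x n, S.c (T x) n = h n / h (n + 1) * S.c x (n + 1) := fun x n => by rw [hT, hw]
  have hpos : ∀ n, 0 < ‖h n‖ := fun n => norm_pos_iff.2 (hh n)
  have c1 : ∀ (C ρ : ℝ) (n : ℤ) (i : ℕ), ∏ k ∈ Finset.range i, ‖w (n + k + 1)‖ ≤ C * ρ ^ i ↔
      ‖h n‖ ≤ C * ρ ^ i * ‖h (n + i)‖ := fun C ρ n i => by
    rw [prod_h hh hw, div_le_iff₀ (hpos _)]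
  have c2 : ∀ (C ρ : ℝ) (n : ℤ) (i : ℕ), (∏ k ∈ Finset.range i, ‖w (n - i + k + 1)‖)⁻¹ ≤ C * ρ ^ i ↔
      ‖h n‖ ≤ C * ρ ^ i * ‖h (n - i)‖ := fun C ρ n i => by
    rw [prod_h hh hw, sub_add_cancel, inv_div, div_le_iff₀ (hpos _)]
  have c3 : ∀ (C ρ : ℝ) (n : ℤ) (i : ℕ), (∏ k ∈ Finset.range i, ‖w (n + k + 1)‖)⁻¹ ≤ C * ρ ^ i ↔
      ‖h (n + i)‖ ≤ C * ρ ^ i * ‖h n‖ := fun C ρ n i => by
    rw [prod_h hh hw, inv_div, div_le_iff₀ (hpos _)]
  have c4 : ∀ (C ρ : ℝ) (n : ℤ) (i : ℕ), ∏ k ∈ Finset.range i, ‖w (n - i + k + 1)‖ ≤ C * ρ ^ i ↔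
      ‖h (n - i)‖ ≤ C * ρ ^ i * ‖h n‖ := fun C ρ n i => by
    rw [prod_h hh hw, sub_add_cancel, div_le_iff₀ (hpos _)]
  have hE : UnifExp w ↔ ∃ (C ρ : ℝ) (A : Set ℤ), 0 < C ∧ 0 < ρ ∧ ρ < 1 ∧
      (∀ n ∈ A, ∀ i : ℕ, ‖h n‖ ≤ C * ρ ^ i * ‖h (n + i)‖) ∧
      (∀ n ∉ A, ∀ i : ℕ, ‖h n‖ ≤ C * ρ ^ i * ‖h (n - i)‖) := by
    unfold UnifExp
    simp only [c1, c2]
  have hH : GenHyp w ↔ ∃ (C ρ : ℝ) (A : Set ℤ), 0 < C ∧ 0 < ρ ∧ ρ < 1 ∧
      (∀ n ∈ A, ∀ i : ℕ, ‖h (n + i)‖ ≤ C * ρ ^ i * ‖h n‖) ∧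
      (∀ n ∉ A, ∀ i : ℕ, ‖h (n - i)‖ ≤ C * ρ ^ i * ‖h n‖) := by
    unfold GenHyp
    simp only [c3, c4]
  rw [hE, hH]
  constructor
  · intro hP
    obtain ⟨G, hG⟩ := exists_G (fun n => ‖h n‖)
    exact weights_of_psp S hh hT' hP hG
  · rintro (⟨C, ρ, A, hC, hρ0, hρ, hA, hB⟩ | ⟨C, ρ, A, hC, hρ0, hρ, hA, hB⟩)
    · exact psp_of_expansive S hh hT' hC hρ0 hρ hA hB
    · exact psp_of_hyperbolic S hh hT' hC hρ0 hρ hA hB

end Pool.Agent.Q74.Shift
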